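import Pool.Agent.W890.SF.Stm

/-! # Project SAM: almost perfect matchings in the non-extremal case -/

set_option autoImplicit false

namespace Pool.Agent.W436.SAM

open Pool.Agent.W890.SF

theorem nea (h1 : S_NEU) (h2 : S_ROB) : S_NEA := by
  intro k hk γ hγ
  obtain ⟨η, hη, H1⟩ := h1 k hk γ hγ
  refine ⟨η, hη, fun θ hθ => ?_⟩
  by_cases hθ1 : 1 ≤ θ
  · refine ⟨0, fun V _ _ _ H _ _ _ => ⟨∅, Finset.empty_subset _, ?_, ?_⟩⟩
    · intro e he
      exact absurd he (Finset.notMem_empty e)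
    · rw [Finset.card_empty]
      push_cast
      rw [mul_zero]
      exact mul_nonpos_of_nonpos_of_nonneg (by linarith) (Nat.cast_nonneg _)
  · push Not at hθ1
    obtain ⟨c, τ, hc, hτ, n1, H2⟩ := H1 (θ / 2) (by linarith) (by linarith)
    obtain ⟨n2, H3⟩ := h2 k (by omega) c τ (θ / 2) hc hτ (by linarith)
    refine ⟨max n1 n2, fun V _ _ hn H hU hD hE => ?_⟩
    have hk0 : (1 : ℝ) ≤ (k : ℝ) := by exact_mod_cast (by omega : 1 ≤ k)
    have hN0 : (0 : ℝ) ≤ (Fintype.card V : ℝ) := Nat.cast_nonneg _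
    obtain ⟨m, hm⟩ : ∃ m : ℝ, m = (1 - θ / 2) * (Fintype.card V : ℝ) / k := ⟨_, rfl⟩
    have hm0 : 0 ≤ m := by
      rw [hm]
      exact div_nonneg (mul_nonneg (by linarith) hN0) (by linarith)
    have hmN : m ≤ (Fintype.card V : ℝ) := by
      rw [hm, div_le_iff₀ (by linarith)]
      nlinarith
    obtain ⟨M, hMH, hM, hMc⟩ := H3 V (le_trans (le_max_right _ _) hn) H hU m hm0 hmN
      (fun y hy hs => H2 V (le_trans (le_max_left _ _) hn) H hU hD hE y hy (by rw [← hm]; exact hs))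
    refine ⟨M, hMH, hM, ?_⟩
    have h3 : (k : ℝ) * m = (1 - θ / 2) * (Fintype.card V : ℝ) := by
      rw [hm]; field_simp
    have h4 : (k : ℝ) * ((1 - θ / 2) * m) ≤ (k : ℝ) * (M.card : ℝ) :=
      mul_le_mul_of_nonneg_left hMc (by linarith)
    have h5 : (k : ℝ) * ((1 - θ / 2) * m) = (1 - θ / 2) * ((1 - θ / 2) * (Fintype.card V : ℝ)) := by
      rw [← h3]; ring
    rw [h5] at h4
    refine le_trans ?_ h4
    nlinarith [mul_nonneg (sq_nonneg θ) hN0]

end Pool.Agent.W436.SAM
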